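import Pool.Agent.TH125.Der.Def

/-!
# Basic facts on the cohomology; the Mukai pairing
-/

namespace Pool.Agent.TH125.Der

open Module Finset

namespace Cohomology

variable {n : ℕ} (X : Cohomology n)

theorem ind {P : X.H → Prop} (h0 : P 0) (hadd : ∀ x y, P x → P y → P (x + y))
    (hp : ∀ p q, ∀ x ∈ X.piece p q, P x) (x : X.H) : P x := by
  have h1 : x ∈ ⨆ i : ℕ × ℕ, X.piece i.1 i.2 := by
    rw [X.internal.submodule_iSup_eq_top]
    exact Submodule.mem_top
  refine Submodule.iSup_induction (fun i : ℕ × ℕ => X.piece i.1 i.2) (motive := P) h1 ?_ h0 hadd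
  intro i y hy
  exact hp i.1 i.2 y hy

theorem dual_apply {p q : ℕ} {x : X.H} (hx : x ∈ X.piece p q) :
    X.dual x = Complex.I ^ (p + q) • x := by
  have h1 : X.components x =
      DirectSum.lof ℂ (ℕ × ℕ) (fun i => X.piece i.1 i.2) (p, q) ⟨x, hx⟩ := by
    rw [components, LinearEquiv.symm_apply_eq, LinearEquiv.ofBijective_apply,
      DirectSum.coeLinearMap_lof]
  unfold dual
  rw [LinearMap.comp_apply, LinearEquiv.coe_coe, h1, DirectSum.toModule_lof]
  rfl

theorem int_ext {x x' : X.H} (h : ∀ y, X.int x y = X.int x' y) : x = x' := by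
  refine sub_eq_zero.1 (X.int_nondeg _ fun y => ?_)
  rw [map_sub, LinearMap.sub_apply, h y, sub_self]

theorem piece_large {p q : ℕ} (h : n < p ∨ n < q) {x : X.H} (hx : x ∈ X.piece p q) : x = 0 := by
  refine X.int_nondeg x fun y => ?_
  refine X.ind (P := fun y => X.int x y = 0) (map_zero _) ?_ ?_ y
  · intro a b ha hb
    rw [map_add, ha, hb, add_zero]
  · intro p' q' y hy
    refine X.int_eq_zero hx hy fun h' => ?_
    have h1 := congrArg Prod.fst h'
    have h2 := congrArg Prod.snd h'
    simp only at h1 h2
    omega

theorem chern_pow_mem {p q : ℕ} {x : X.H} (hx : x ∈ X.piece p q) (k : ℕ) :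
    (X.chern ^ k) x ∈ X.piece (p + k) (q + k) := by
  induction k with
  | zero => simpa using hx
  | succ k ih =>
    rw [pow_succ', Module.End.mul_apply]
    exact X.chern_mem ih

theorem lef_pow_mem {p q : ℕ} {x : X.H} (hx : x ∈ X.piece p q) (k : ℕ) :
    (X.lef ^ k) x ∈ X.piece (p + k) (q + k) := by
  induction k with
  | zero => simpa using hx
  | succ k ih =>
    rw [pow_succ', Module.End.mul_apply]
    exact X.lef_mem ih

theorem chern_pow_zero : X.chern ^ (n + 1) = 0 := by
  apply LinearMap.ext
  intro x
  rw [LinearMap.zero_apply]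
  refine X.ind (P := fun x => (X.chern ^ (n + 1)) x = 0) (map_zero _) ?_ ?_ x
  · intro a b ha hb
    rw [map_add, ha, hb, add_zero]
  · intro p q y hy
    exact X.piece_large (Or.inl (by omega)) (X.chern_pow_mem hy (n + 1))

theorem chern_pow_int (k : ℕ) (x y : X.H) :
    X.int ((X.chern ^ k) x) y = X.int x ((X.chern ^ k) y) := by
  induction k generalizing x y with
  | zero => rfl
  | succ k ih =>
    rw [pow_succ', Module.End.mul_apply, X.chern_int, ih, ← Module.End.mul_apply, ← pow_succ]
    rw [pow_succ']

theorem lef_pow_int (k : ℕ) (x y : X.H) :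
    X.int ((X.lef ^ k) x) y = X.int x ((X.lef ^ k) y) := by
  induction k generalizing x y with
  | zero => rfl
  | succ k ih =>
    rw [pow_succ', Module.End.mul_apply, X.lef_int, ih, ← Module.End.mul_apply, ← pow_succ]
    rw [pow_succ']

theorem lef_pow_conj (k : ℕ) (x : X.H) :
    (X.lef ^ k) (X.conj x) = X.conj ((X.lef ^ k) x) := by
  induction k generalizing x with
  | zero => rfl
  | succ k ih =>
    rw [pow_succ', Module.End.mul_apply, ih, X.lef_conj, Module.End.mul_apply]

/-- The map `dual` and the pairing. -/
theorem dual_int (x y : X.H) : X.int (X.dual x) (X.dual y) = (-1) ^ n * X.int x y := by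
  refine X.ind (P := fun x => X.int (X.dual x) (X.dual y) = (-1) ^ n * X.int x y) ?_ ?_ ?_ x
  · simp
  · intro a b ha hb
    simp only [map_add, LinearMap.add_apply, ha, hb]
    ring
  · intro p q x hx
    refine X.ind (P := fun y => X.int (X.dual x) (X.dual y) = (-1) ^ n * X.int x y) ?_ ?_ ?_ y
    · simp
    · intro a b ha hb
      simp only [map_add, ha, hb]
      ring
    · intro p' q' y hy
      rw [X.dual_apply hx, X.dual_apply hy]
      simp only [map_smul, LinearMap.smul_apply, smul_eq_mul]
      by_cases h : (p + p', q + q') = (n, n)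
      · have h1 := congrArg Prod.fst h
        have h2 := congrArg Prod.snd h
        simp only at h1 h2
        have h3 : Complex.I ^ (p' + q') * (Complex.I ^ (p + q) * X.int x y) =
            Complex.I ^ ((p' + q') + (p + q)) * X.int x y := by
          rw [pow_add]
          ring
        have h4 : (p' + q') + (p + q) = 2 * n := by omega
        rw [h3, h4, pow_mul, Complex.I_sq]
      · rw [X.int_eq_zero hx hy h]
        ring

theorem int_swap (x y : X.H) : X.int y x = X.int (X.dual (X.dual x)) y := by
  refine X.ind (P := fun x => X.int y x = X.int (X.dual (X.dual x)) y) ?_ ?_ ?_ x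
  · simp
  · intro a b ha hb
    simp only [map_add, LinearMap.add_apply, ha, hb]
  · intro p q x hx
    refine X.ind (P := fun y => X.int y x = X.int (X.dual (X.dual x)) y) ?_ ?_ ?_ y
    · simp
    · intro a b ha hb
      simp only [map_add, LinearMap.add_apply, ha, hb]
    · intro p' q' y hy
      rw [X.dual_apply hx, map_smul, X.dual_apply hx]
      simp only [map_smul, LinearMap.smul_apply, smul_eq_mul]
      by_cases h : (p + p', q + q') = (n, n)
      · have h1 := congrArg Prod.fst h
        have h2 := congrArg Prod.snd h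
        simp only at h1 h2
        rw [X.int_comm hx hy]
        have h3 : Complex.I ^ (p + q) * (Complex.I ^ (p + q) * X.int x y) =
            (-1) ^ (p + q) * X.int x y := by
          rw [← Complex.I_sq, ← pow_mul, two_mul, pow_add]
          ring
        rw [h3]
        congr 1
        rcases Nat.even_or_odd (p + q) with h4 | h4
        · rw [h4.neg_one_pow, (h4.mul_right _).neg_one_pow]
        · have h5 : Odd (p' + q') := by
            rcases h4 with ⟨m, hm⟩
            rcases Nat.even_or_odd (p' + q') with ⟨k, hk⟩ | h5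
            · exfalso
              omega
            · exact h5
          rw [h4.neg_one_pow, (h4.mul h5).neg_one_pow]
      · rw [X.int_eq_zero hx hy h, X.int_eq_zero hy hx]
        · ring
        · intro h'
          apply h
          have h1 := congrArg Prod.fst h'
          have h2 := congrArg Prod.snd h'
          simp only at h1 h2
          ext <;> simp only <;> omega

theorem dual_chern (x : X.H) : X.dual (X.chern x) = -X.chern (X.dual x) := by
  refine X.ind (P := fun x => X.dual (X.chern x) = -X.chern (X.dual x)) ?_ ?_ ?_ x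
  · simp
  · intro a b ha hb
    simp only [map_add, ha, hb]
    abel
  · intro p q x hx
    rw [X.dual_apply (X.chern_mem hx), X.dual_apply hx, map_smul]
    have h1 : Complex.I ^ (p + 1 + (q + 1)) = -Complex.I ^ (p + q) := by
      have h2 : p + 1 + (q + 1) = (p + q) + 2 := by omega
      rw [h2, pow_add, Complex.I_sq]
      ring
    rw [h1, neg_smul]

theorem dual_chern_pow (k : ℕ) (x : X.H) :
    X.dual ((X.chern ^ k) x) = (-1 : ℂ) ^ k • (X.chern ^ k) (X.dual x) := by
  induction k with
  | zero => simp
  | succ k ih =>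
    rw [pow_succ', Module.End.mul_apply, X.dual_chern, ih, map_smul, ← neg_smul, pow_succ',
      Module.End.mul_apply]
    congr 1
    ring

/-! ### The exponential -/

theorem expChern_eq (t : ℂ) (x : X.H) :
    X.expChern t x = ∑ k ∈ range (n + 1), (t ^ k / (k.factorial : ℂ)) • (X.chern ^ k) x := by
  rw [expChern, LinearMap.sum_apply]
  rfl

theorem expChern_zero (x : X.H) : X.expChern 0 x = x := by
  rw [expChern_eq, Finset.sum_eq_single 0]
  · simp
  · intro k _ hk
    rw [zero_pow hk, zero_div, zero_smul]
  · intro h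
    exact absurd (mem_range.2 (Nat.succ_pos n)) h

theorem expChern_int (t : ℂ) (x y : X.H) :
    X.int (X.expChern t x) y = X.int x (X.expChern t y) := by
  rw [expChern_eq, expChern_eq, map_sum, map_sum, LinearMap.sum_apply]
  refine Finset.sum_congr rfl fun k _ => ?_
  rw [map_smul, map_smul, LinearMap.smul_apply, X.chern_pow_int]

theorem dual_expChern (t : ℂ) (x : X.H) :
    X.dual (X.expChern t x) = X.expChern (-t) (X.dual x) := by
  rw [expChern_eq, expChern_eq, map_sum]
  refine Finset.sum_congr rfl fun k _ => ?_
  rw [map_smul, X.dual_chern_pow, smul_smul]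
  congr 1
  rw [neg_pow]
  ring

theorem expChern_add (s t : ℂ) : X.expChern (s + t) = X.expChern s * X.expChern t := by
  let _ : Module ℚ (Module.End ℂ X.H) := Module.compHom _ (algebraMap ℚ ℂ)
  have h0 : ∀ t : ℂ, (t • X.chern : Module.End ℂ X.H) ^ (n + 1) = 0 := by
    intro t
    rw [smul_pow, X.chern_pow_zero, smul_zero]
  have h1 : ∀ t : ℂ, X.expChern t = IsNilpotent.exp (t • X.chern : Module.End ℂ X.H) := by
    intro t
    rw [IsNilpotent.exp_eq_sum (h0 t), expChern]
    refine Finset.sum_congr rfl fun k _ => ?_
    have h2 : ∀ (r : ℚ) (f : Module.End ℂ X.H), r • f = (algebraMap ℚ ℂ r) • f :=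
      fun r f => rfl
    rw [h2, smul_pow, smul_smul]
    congr 1
    rw [map_inv₀, map_natCast]
    ring
  rw [h1, h1, h1, add_smul]
  exact IsNilpotent.exp_add_of_commute ((Commute.refl X.chern).smul_left s |>.smul_right t)
    ⟨n + 1, h0 s⟩ ⟨n + 1, h0 t⟩

end Cohomology

end Pool.Agent.TH125.Der
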