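import Pool.Agent.TH125.Der.Dim

/-!
# Semidefinite subspaces of a column
-/

namespace Pool.Agent.TH125.Der

open Module Finset

namespace Cohomology

variable {n : ℕ} (X : Cohomology n)

/-- The hermitian form `∫ x^∨ ∪ conj y`. -/
noncomputable def herm : X.H →ₗ[ℂ] X.H →ₛₗ[starRingEnd ℂ] ℂ := (X.int.compl₂ X.conj) ∘ₗ X.dual

theorem herm_apply (x y : X.H) : X.herm x y = X.int (X.dual x) (X.conj y) := rfl

/-- Induction for the elements of a column. -/
theorem column_ind {p q : ℕ} {P : X.H → Prop} (h0 : P 0) (hadd : ∀ x y, P x → P y → P (x + y))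
    (hp : ∀ a b, a + q = b + p → ∀ x ∈ X.piece a b, P x) {x : X.H} (hx : x ∈ X.column p q) :
    P x := by
  rw [column] at hx
  refine Submodule.iSup_induction _ (motive := P) hx ?_ h0 hadd
  intro a y hy
  refine Submodule.iSup_induction _ (motive := P) hy ?_ h0 hadd
  intro b z hz
  refine Submodule.iSup_induction _ (motive := P) hz ?_ h0 hadd
  intro h w hw
  exact hp a b h w hw

theorem conj_dual {p q : ℕ} {x : X.H} (hx : x ∈ X.piece p q) :
    X.conj (X.dual x) = (-Complex.I) ^ (p + q) • X.conj x := by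
  rw [X.dual_apply hx, LinearMap.map_smulₛₗ, map_pow, Complex.conj_I]

theorem herm_symm_piece {p q : ℕ} {x : X.H} (hx : x ∈ X.piece p q) (y : X.H) :
    starRingEnd ℂ (X.herm x y) = (-1) ^ (n + (p + q)) * X.herm y x := by
  rw [herm_apply, herm_apply, ← X.int_conj, X.conj_conj, X.conj_dual hx, map_smul,
    LinearMap.smul_apply, smul_eq_mul, X.int_swap y]
  have h1 : X.int (X.dual (X.dual y)) (X.dual (X.conj x)) =
      (-1) ^ n * X.int (X.dual y) (X.conj x) := X.dual_int _ _
  rw [X.dual_apply (X.conj_mem hx), map_smul, smul_eq_mul] at h1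
  have h2 : Complex.I ^ (q + p) ≠ 0 := pow_ne_zero _ Complex.I_ne_zero
  have h3 : (-Complex.I) ^ (p + q) = (-1) ^ (p + q) * Complex.I ^ (q + p) := by
    rw [neg_pow, add_comm q p]
  rw [h3, mul_assoc, h1, pow_add]
  ring

theorem herm_symm {p q : ℕ} (hn : Even (n + (p + q))) {x : X.H} (hx : x ∈ X.column p q) (y : X.H) :
    starRingEnd ℂ (X.herm x y) = X.herm y x := by
  refine X.column_ind (P := fun x => starRingEnd ℂ (X.herm x y) = X.herm y x) ?_ ?_ ?_ hx
  · simp
  · intro a b ha hb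
    simp only [map_add, LinearMap.add_apply, ha, hb]
  · intro a b hab x hx
    rw [X.herm_symm_piece hx, Even.neg_one_pow, one_mul]
    obtain ⟨k, hk⟩ := hn
    rcases Nat.even_or_odd (n + (a + b)) with h | ⟨l, hl⟩
    · exact h
    · exfalso
      omega

theorem herm_zero {p q p' q' : ℕ} {x y : X.H} (hx : x ∈ X.piece p q) (hy : y ∈ X.piece p' q')
    (h : (p + q', q + p') ≠ (n, n)) : X.herm x y = 0 := by
  rw [herm_apply, X.dual_apply hx, map_smul, LinearMap.smul_apply,
    X.int_eq_zero hx (X.conj_mem hy) h, smul_zero]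

theorem herm_nondeg {p q : ℕ} {x : X.H} (hx : x ∈ X.column p q)
    (h : ∀ y ∈ X.column p q, X.herm x y = 0) : x = 0 := by
  have h1 : ∀ y, X.herm x y = 0 := by
    intro y
    refine X.ind (P := fun y => X.herm x y = 0) (map_zero _) ?_ ?_ y
    · intro a b ha hb
      rw [map_add, ha, hb, add_zero]
    · intro a b y hy
      by_cases hab : a + q = b + p
      · exact h y (Submodule.mem_iSup_of_mem a (Submodule.mem_iSup_of_mem b
          (Submodule.mem_iSup_of_mem hab hy)))
      · refine X.column_ind (P := fun x => X.herm x y = 0) ?_ ?_ ?_ hx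
        · simp
        · intro u v hu hv
          rw [map_add, LinearMap.add_apply, hu, hv, add_zero]
        · intro a' b' hab' x hx
          refine X.herm_zero hx hy fun h' => hab ?_
          have h1 := congrArg Prod.fst h'
          have h2 := congrArg Prod.snd h'
          simp only at h1 h2
          omega
  refine X.dual_zero_of (X.int_nondeg _ fun y => ?_)
  have h2 := h1 (X.conj y)
  rwa [herm_apply, X.conj_conj] at h2

/-- The sign. -/
def eps (n b K : ℕ) : ℂ := (-1) ^ (b + K + n * (n - 1) / 2)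

theorem eps_re (n b K : ℕ) (z : ℂ) : eps n b K * z = z ∨ eps n b K * z = -z := by
  rcases Nat.even_or_odd (b + K + n * (n - 1) / 2) with h | h
  · left
    rw [eps, h.neg_one_pow, one_mul]
  · right
    rw [eps, h.neg_one_pow, neg_one_mul]

theorem tri_sign (k i : ℕ) :
    ((-1 : ℂ)) ^ ((k + 2 * i) * (k + 2 * i - 1) / 2) = (-1) ^ i * (-1) ^ (k * (k - 1) / 2) := by
  induction i with
  | zero => simp
  | succ i ih =>
    have h1 : (k + 2 * (i + 1)) * (k + 2 * (i + 1) - 1) / 2 =
        (k + 2 * i) * (k + 2 * i - 1) / 2 + (2 * (k + 2 * i) + 1) := by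
      obtain ⟨m, hm⟩ : ∃ m, m = k + 2 * i := ⟨_, rfl⟩
      have h2 : k + 2 * (i + 1) = m + 2 := by omega
      rw [h2, ← hm]
      have h3 : (m + 2) * (m + 2 - 1) = m * (m - 1) + 2 * (2 * m + 1) := by
        rcases m with _ | m
        · rfl
        · have h4 : m + 1 + 2 - 1 = m + 2 := by omega
          have h5 : m + 1 - 1 = m := by omega
          rw [h4, h5]
          ring
      rw [h3, Nat.add_mul_div_left _ _ (by norm_num)]
    rw [h1, pow_add, ih, pow_succ, pow_succ, pow_mul]
    norm_num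

/-- The primitive classes. -/
def prim (a b K s : ℕ) : Submodule ℂ X.H :=
  X.piece (a + s) (b + s) ⊓ LinearMap.ker (X.lef ^ (2 * (K - s) + 1))

/-- The hermitian form on primitive classes. -/
theorem herm_prim {a b K s : ℕ} (hK : a + b + 2 * K = n) (hs : s ≤ K) {x : X.H}
    (hx : x ∈ X.prim a b K s) (hx0 : x ≠ 0) :
    0 < ((-1) ^ (K - s) * (eps n b K *
      X.herm ((X.lef ^ (K - s)) x) ((X.lef ^ (K - s)) x))).re := by
  obtain ⟨i, hi⟩ : ∃ i, i = K - s := ⟨_, rfl⟩
  have hx1 : x ∈ X.piece (a + s) (b + s) := hx.1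
  have hx2 : (X.lef ^ (2 * (K - s) + 1)) x = 0 := hx.2
  rw [← hi] at hx2 ⊢
  have hdeg : n - ((a + s) + (b + s)) = 2 * i := by omega
  have h1 := X.hodge_riemann hx1 (by omega) (by rw [hdeg]; exact hx2) hx0
  rw [hdeg] at h1
  convert h1 using 2
  rw [herm_apply, X.dual_apply (X.lef_pow_mem hx1 i), map_smul, LinearMap.smul_apply, smul_eq_mul,
    ← X.lef_pow_conj, ← X.lef_pow_int, ← Module.End.mul_apply, ← pow_add, ← two_mul]
  have h2 : a + s + i + (b + s + i) = n := by omega
  rw [h2]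
  have h3 : n = (a + s + (b + s)) + 2 * i := by omega
  have h4 : (-1 : ℂ) ^ (n * (n - 1) / 2) =
      (-1) ^ i * (-1) ^ ((a + s + (b + s)) * (a + s + (b + s) - 1) / 2) := by
    conv_lhs => rw [h3]
    exact tri_sign _ _
  have h5 : Complex.I ^ n = Complex.I ^ a * Complex.I ^ b * (-1) ^ K := by
    rw [← hK, pow_add, pow_add, pow_mul, Complex.I_sq]
  have h6 : ∀ m : ℕ, ((-1 : ℂ)) ^ m * (-1) ^ m = 1 := by
    intro m
    rw [← mul_pow]
    norm_num
  have h7 : Complex.I ^ s * (-Complex.I) ^ s = 1 := by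
    rw [← mul_pow]
    simp
  have h8 : (-Complex.I) ^ b = (-1) ^ b * Complex.I ^ b := neg_pow _ _
  rw [eps, pow_add, pow_add, h4, h5]
  have h9 : Complex.I ^ (a + s) * (-Complex.I) ^ (b + s) =
      Complex.I ^ a * ((-1) ^ b * Complex.I ^ b) := by
    rw [pow_add, pow_add, ← h8]
    linear_combination (Complex.I ^ a * (-Complex.I) ^ b) * h7
  rw [h9]
  linear_combination (Complex.I ^ a * Complex.I ^ b * (-1) ^ b *
    (-1) ^ ((a + s + (b + s)) * (a + s + (b + s) - 1) / 2) *
    X.int ((X.lef ^ (2 * i)) x) (X.conj x)) * ((-1) ^ K * (-1) ^ K * h6 i + h6 K)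

theorem prim_zero {a b K s : ℕ} (hs : s ≤ K) {x : X.H} (hK : a + b + 2 * K = n)
    (hx : x ∈ X.piece (a + s) (b + s)) (h : (X.lef ^ (K - s)) x = 0) : x = 0 := by
  refine X.hard_lefschetz hx (by omega) ?_
  have h1 : n - ((a + s) + (b + s)) = (K - s) + (K - s) := by omega
  rw [h1, pow_add, Module.End.mul_apply, h, map_zero]

/-- The previous value of a sequence. -/
def prev (f : ℕ → ℕ) : ℕ → ℕ
  | 0 => 0
  | s + 1 => f s

theorem prim_dim {a b K s : ℕ} (hab : a = 0 ∨ b = 0) (hK : a + b + 2 * K = n) (hs : s ≤ K) :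
    X.hodgeNumber (a + s) (b + s) ≤
      finrank ℂ (X.prim a b K s) + prev (fun s => X.hodgeNumber (a + s) (b + s)) s := by
  let f : X.piece (a + s) (b + s) →ₗ[ℂ]
      X.piece (a + s + (2 * (K - s) + 1)) (b + s + (2 * (K - s) + 1)) :=
    ((X.lef ^ (2 * (K - s) + 1)) ∘ₗ (X.piece (a + s) (b + s)).subtype).codRestrict _
      fun x => X.lef_pow_mem x.2 _
  have h1 := LinearMap.finrank_range_add_finrank_ker f
  have h2 : finrank ℂ (LinearMap.range f) ≤
      X.hodgeNumber (a + s + (2 * (K - s) + 1)) (b + s + (2 * (K - s) + 1)) :=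
    Submodule.finrank_le _
  have h3 : X.hodgeNumber (a + s + (2 * (K - s) + 1)) (b + s + (2 * (K - s) + 1)) =
      prev (fun s => X.hodgeNumber (a + s) (b + s)) s := by
    rcases s with _ | s
    · exact X.hodge_large (by omega)
    · change _ = X.hodgeNumber (a + s) (b + s)
      rw [X.conj_eq (a + s) (b + s)]
      exact X.dim_eq (by omega) (by omega)
  have h4 : finrank ℂ (LinearMap.ker f) ≤ finrank ℂ (X.prim a b K s) := by
    let g : LinearMap.ker f →ₗ[ℂ] X.prim a b K s :=
      ((X.piece (a + s) (b + s)).subtype ∘ₗ (LinearMap.ker f).subtype).codRestrict _ fun x =>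
        ⟨x.1.2, LinearMap.mem_ker.2 (congrArg Subtype.val (LinearMap.mem_ker.1 x.2))⟩
    refine LinearMap.finrank_le_finrank_of_injective (f := g) fun x y hxy => ?_
    exact Subtype.ext (Subtype.ext (congrArg (fun z : X.prim a b K s => (z : X.H)) hxy))
  rw [hodgeNumber]
  omega

/-- The primitive classes in the middle. -/
def top (a b K s : ℕ) : Submodule ℂ X.H := (X.prim a b K s).map (X.lef ^ (K - s))

/-- The contributions of the pieces before the `s`-th one to the middle. -/
def cont (a b K s : ℕ) : Submodule ℂ X.H :=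
  (range s).sup fun s' => (X.piece (a + s') (b + s')).map (X.lef ^ (K - s'))

theorem cont_succ (a b K s : ℕ) : X.cont a b K (s + 1) =
    (X.piece (a + s) (b + s)).map (X.lef ^ (K - s)) ⊔ X.cont a b K s := by
  rw [cont, range_add_one, sup_insert]
  rfl

theorem top_dim {a b K s : ℕ} (hK : a + b + 2 * K = n) (hs : s ≤ K) :
    finrank ℂ (X.top a b K s) = finrank ℂ (X.prim a b K s) := by
  refine (LinearEquiv.finrank_eq (LinearEquiv.ofBijective
    (((X.lef ^ (K - s)) ∘ₗ (X.prim a b K s).subtype).codRestrict (X.top a b K s)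
      fun x => Submodule.mem_map_of_mem x.2) ⟨?_, ?_⟩)).symm
  · rw [← LinearMap.ker_eq_bot, LinearMap.ker_eq_bot']
    intro x hx
    apply Subtype.ext
    exact X.prim_zero hs hK x.2.1 (congrArg Subtype.val hx)
  · rintro ⟨_, x, hx, rfl⟩
    exact ⟨⟨x, hx⟩, rfl⟩

theorem top_pos {a b K s : ℕ} (hK : a + b + 2 * K = n) (hs : s ≤ K) {x : X.H}
    (hx : x ∈ X.top a b K s) (hx0 : x ≠ 0) :
    0 < ((-1) ^ (K - s) * (eps n b K * X.herm x x)).re := by
  obtain ⟨y, hy, rfl⟩ := hx
  refine X.herm_prim hK hs hy fun h => hx0 ?_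
  rw [h, map_zero]

theorem top_orth {a b K s : ℕ} (hs : s ≤ K) {x y : X.H}
    (hx : x ∈ X.top a b K s) (hy : y ∈ X.cont a b K s) :
    X.herm x y = 0 ∧ X.herm y x = 0 := by
  obtain ⟨x, hx, rfl⟩ := hx
  have hx2 : (X.lef ^ (2 * (K - s) + 1)) x = 0 := hx.2
  have hle : X.cont a b K s ≤
      (LinearMap.ker (X.herm ((X.lef ^ (K - s)) x)) ⊓
        LinearMap.ker (X.herm.flip ((X.lef ^ (K - s)) x)) : Submodule ℂ X.H) := by
    refine Finset.sup_le fun s' hs' => ?_
    rw [mem_range] at hs'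
    rintro _ ⟨z, hz, rfl⟩
    have h1 : (X.lef ^ ((K - s') + (K - s))) x = 0 := by
      have h2 : (K - s') + (K - s) = (s - s' - 1) + (2 * (K - s) + 1) := by omega
      rw [h2, pow_add, Module.End.mul_apply, hx2, map_zero]
    constructor
    · change X.herm ((X.lef ^ (K - s)) x) ((X.lef ^ (K - s')) z) = 0
      rw [herm_apply, X.dual_apply (X.lef_pow_mem hx.1 _), map_smul, LinearMap.smul_apply,
        ← X.lef_pow_conj, ← X.lef_pow_int, ← Module.End.mul_apply, ← pow_add, h1, map_zero,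
        LinearMap.zero_apply, smul_zero]
    · change X.herm ((X.lef ^ (K - s')) z) ((X.lef ^ (K - s)) x) = 0
      rw [herm_apply, X.dual_apply (X.lef_pow_mem hz _), map_smul, LinearMap.smul_apply,
        X.lef_pow_int, X.lef_pow_conj, ← Module.End.mul_apply, ← pow_add, h1, map_zero, map_zero,
        smul_zero]
  exact hle hy

end Cohomology

end Pool.Agent.TH125.Der
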