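import Mathlib

/-!
# The cohomology of a smooth projective variety and Fourier–Mukai transforms
-/

namespace Pool.Agent.TH125.Der

open Module Finset

/-- The total cohomology with complex coefficients of a connected compact Kähler manifold, with
its Hodge decomposition and complex conjugation. -/
structure HodgeSpace where
  /-- The total cohomology. -/
  H : Type
  [addCommGroup : AddCommGroup H]
  [module : Module ℂ H]
  [finiteDimensional : FiniteDimensional ℂ H]
  /-- The subspaces `H^{p,q}`. -/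
  piece : ℕ → ℕ → Submodule ℂ H
  /-- The Hodge decomposition. -/
  internal : DirectSum.IsInternal fun i : ℕ × ℕ => piece i.1 i.2
  connected : finrank ℂ (piece 0 0) = 1
  /-- Complex conjugation. -/
  conj : H →ₛₗ[starRingEnd ℂ] H
  conj_conj : ∀ x, conj (conj x) = x
  conj_mem : ∀ {p q : ℕ} {x : H}, x ∈ piece p q → conj x ∈ piece q p

attribute [instance] HodgeSpace.addCommGroup HodgeSpace.module HodgeSpace.finiteDimensional

/-- The properties of the pairing `int x y = ∫ x ∪ y` for a manifold of dimension `n`: it is real,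
graded, graded commutative and nondegenerate. -/
structure IsPoincareDuality (V : HodgeSpace) (n : ℕ) (int : V.H →ₗ[ℂ] V.H →ₗ[ℂ] ℂ) : Prop where
  int_conj : ∀ x y, int (V.conj x) (V.conj y) = starRingEnd ℂ (int x y)
  int_eq_zero : ∀ {p q p' q' : ℕ} {x y : V.H}, x ∈ V.piece p q → y ∈ V.piece p' q' →
    (p + p', q + q') ≠ (n, n) → int x y = 0
  int_comm : ∀ {p q p' q' : ℕ} {x y : V.H}, x ∈ V.piece p q → y ∈ V.piece p' q' →
    int y x = (-1) ^ ((p + q) * (p' + q')) * int x y
  int_nondeg : ∀ x, (∀ y, int x y = 0) → x = 0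

/-- The properties of the cup product `c` with a class in `H^{1,1}`. -/
structure IsCupProduct (V : HodgeSpace) (int : V.H →ₗ[ℂ] V.H →ₗ[ℂ] ℂ) (c : V.H →ₗ[ℂ] V.H) :
    Prop where
  mem : ∀ {p q : ℕ} {x : V.H}, x ∈ V.piece p q → c x ∈ V.piece (p + 1) (q + 1)
  int_eq : ∀ x y, int (c x) y = int x (c y)

/-- The hard Lefschetz theorem for the cup product `lef` with a Kähler class. -/
def HardLefschetz (V : HodgeSpace) (n : ℕ) (lef : V.H →ₗ[ℂ] V.H) : Prop :=
  ∀ {p q : ℕ} {x : V.H}, x ∈ V.piece p q → p + q ≤ n → (lef ^ (n - (p + q))) x = 0 → x = 0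

/-- The Hodge–Riemann relations: if `x` is a nonzero primitive class of type `(p, q)`, `k = p + q`,
then `i^{p-q} (-1)^{k(k-1)/2} ∫ lef^{n-k} x ∪ conj x > 0`. -/
def HodgeRiemann (V : HodgeSpace) (n : ℕ) (int : V.H →ₗ[ℂ] V.H →ₗ[ℂ] ℂ)
    (lef : V.H →ₗ[ℂ] V.H) : Prop :=
  ∀ {p q : ℕ} {x : V.H}, x ∈ V.piece p q → p + q ≤ n → (lef ^ (n - (p + q) + 1)) x = 0 →
    x ≠ 0 → 0 < (Complex.I ^ p * (-Complex.I) ^ q * (-1) ^ ((p + q) * (p + q - 1) / 2) *
      int ((lef ^ (n - (p + q))) x) (V.conj x)).re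

/-- The cohomology of a connected compact Kähler manifold (or smooth projective variety) of
dimension `n`, with the pairing `int x y = ∫ x ∪ y`, the cup product `lef` with a Kähler class and
the cup product `chern` with the first Chern class. -/
structure Cohomology (n : ℕ) extends HodgeSpace where
  /-- The pairing `(x, y) ↦ ∫ x ∪ y`. -/
  int : H →ₗ[ℂ] H →ₗ[ℂ] ℂ
  poincare : IsPoincareDuality toHodgeSpace n int
  /-- The cup product with a Kähler class. -/
  lef : H →ₗ[ℂ] H
  lef_cup : IsCupProduct toHodgeSpace int lef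
  lef_conj : ∀ x, lef (conj x) = conj (lef x)
  hardLefschetz : HardLefschetz toHodgeSpace n lef
  hodgeRiemann : HodgeRiemann toHodgeSpace n int lef
  /-- The cup product with the first Chern class. -/
  chern : H →ₗ[ℂ] H
  chern_cup : IsCupProduct toHodgeSpace int chern

namespace Cohomology

variable {n : ℕ} (X : Cohomology n)

/-- The Hodge number `h^{p,q}`. -/
noncomputable def hodgeNumber (p q : ℕ) : ℕ := finrank ℂ (X.piece p q)

theorem bijective : Function.Bijective
    (DirectSum.coeLinearMap fun i : ℕ × ℕ => X.piece i.1 i.2) := X.internal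

/-- The decomposition of the cohomology. -/
noncomputable def components : X.H ≃ₗ[ℂ] DirectSum (ℕ × ℕ) fun i => X.piece i.1 i.2 :=
  (LinearEquiv.ofBijective
    (DirectSum.coeLinearMap fun i : ℕ × ℕ => X.piece i.1 i.2) X.bijective).symm

/-- The map `x ↦ x^∨` which multiplies the classes of degree `k` by `i^k`. -/
noncomputable def dual : X.H →ₗ[ℂ] X.H :=
  DirectSum.toModule ℂ (ℕ × ℕ) X.H
      (fun i => Complex.I ^ (i.1 + i.2) • (X.piece i.1 i.2).subtype) ∘ₗ
    X.components.toLinearMap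

/-- The cup product with `exp(t c₁)`. -/
noncomputable def expChern (t : ℂ) : X.H →ₗ[ℂ] X.H :=
  ∑ k ∈ range (n + 1), (t ^ k / (k.factorial : ℂ)) • X.chern ^ k

/-- The Mukai pairing `⟨x, y⟩ = ∫ exp(c₁ / 2) ∪ x^∨ ∪ y` of Căldăraru. -/
noncomputable def mukai (x y : X.H) : ℂ := X.int (X.expChern (1 / 2) (X.dual x)) y

/-- The sum of the Hodge numbers `h^{p-i,q-i}` for odd `i`. -/
noncomputable def oddDiagonal (p q : ℕ) : ℕ :=
  ∑ i ∈ range (min p q + 1) with Odd i, X.hodgeNumber (p - i) (q - i)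

/-- The sum of the Hodge numbers `h^{p-i,q-i}` for even `i ≥ 2`. -/
noncomputable def evenDiagonal (p q : ℕ) : ℕ :=
  ∑ i ∈ range (min p q + 1) with Even i ∧ 2 ≤ i, X.hodgeNumber (p - i) (q - i)

/-- The space `⨁_{a - b = p - q} H^{a,b}`, a Hochschild homology group. -/
def column (p q : ℕ) : Submodule ℂ X.H :=
  ⨆ (a : ℕ) (b : ℕ) (_ : a + q = b + p), X.piece a b

theorem int_conj (x y : X.H) : X.int (X.conj x) (X.conj y) = starRingEnd ℂ (X.int x y) :=
  X.poincare.int_conj x y

theorem int_eq_zero {p q p' q' : ℕ} {x y : X.H} (hx : x ∈ X.piece p q) (hy : y ∈ X.piece p' q')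
    (h : (p + p', q + q') ≠ (n, n)) : X.int x y = 0 := X.poincare.int_eq_zero hx hy h

theorem int_comm {p q p' q' : ℕ} {x y : X.H} (hx : x ∈ X.piece p q) (hy : y ∈ X.piece p' q') :
    X.int y x = (-1) ^ ((p + q) * (p' + q')) * X.int x y := X.poincare.int_comm hx hy

theorem int_nondeg (x : X.H) (h : ∀ y, X.int x y = 0) : x = 0 := X.poincare.int_nondeg x h

theorem lef_mem {p q : ℕ} {x : X.H} (hx : x ∈ X.piece p q) :
    X.lef x ∈ X.piece (p + 1) (q + 1) := X.lef_cup.mem hx

theorem lef_int (x y : X.H) : X.int (X.lef x) y = X.int x (X.lef y) := X.lef_cup.int_eq x y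

theorem hard_lefschetz {p q : ℕ} {x : X.H} (hx : x ∈ X.piece p q) (h : p + q ≤ n)
    (h' : (X.lef ^ (n - (p + q))) x = 0) : x = 0 := X.hardLefschetz hx h h'

theorem hodge_riemann {p q : ℕ} {x : X.H} (hx : x ∈ X.piece p q) (h : p + q ≤ n)
    (h' : (X.lef ^ (n - (p + q) + 1)) x = 0) (h0 : x ≠ 0) :
    0 < (Complex.I ^ p * (-Complex.I) ^ q * (-1) ^ ((p + q) * (p + q - 1) / 2) *
      X.int ((X.lef ^ (n - (p + q))) x) (X.conj x)).re := X.hodgeRiemann hx h h' h0

theorem chern_mem {p q : ℕ} {x : X.H} (hx : x ∈ X.piece p q) :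
    X.chern x ∈ X.piece (p + 1) (q + 1) := X.chern_cup.mem hx

theorem chern_int (x y : X.H) : X.int (X.chern x) y = X.int x (X.chern y) :=
  X.chern_cup.int_eq x y

end Cohomology

/-- The map between the total cohomologies given by a derived equivalence (by a Fourier–Mukai
kernel): it is real, preserves the difference `p - q` of the Hodge types and the Mukai pairing. -/
structure Transform {n : ℕ} (X Y : Cohomology n) where
  /-- The map. -/
  map : X.H ≃ₗ[ℂ] Y.H
  map_conj : ∀ x, map (X.conj x) = Y.conj (map x)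
  map_mem : ∀ {p q : ℕ} {x : X.H}, x ∈ X.piece p q → map x ∈ Y.column p q
  map_mukai : ∀ x y, Y.mukai (map x) (map y) = X.mukai x y

end Pool.Agent.TH125.Der
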