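import Mathlib

/-!
# Semidefinite subspaces for nondegenerate hermitian forms
-/

namespace Pool.Agent.TH125.Der

open Module Finset

variable {V : Type} [AddCommGroup V] [Module ℂ V] [FiniteDimensional ℂ V]
  (h : V →ₗ[ℂ] V →ₛₗ[starRingEnd ℂ] ℂ)

/-- The Cauchy–Schwarz inequality for isotropic vectors. -/
theorem cs {P : Submodule ℂ V} (hsymm : ∀ x ∈ P, ∀ y ∈ P, starRingEnd ℂ (h x y) = h y x)
    (hP : ∀ x ∈ P, 0 ≤ (h x x).re) {r s : V} (hr : r ∈ P) (hs : s ∈ P) (h0 : (h r r).re = 0) :
    h r s = 0 := by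
  by_contra hne
  set c : ℂ := h r s with hc
  have hN : 0 < Complex.normSq c := Complex.normSq_pos.2 hne
  have h1 : h s r = starRingEnd ℂ c := (hsymm r hr s hs).symm
  have h2 : (h r r).im = 0 := by
    have h3 := congrArg Complex.im (hsymm r hr r hr)
    rw [Complex.conj_im] at h3
    linarith
  have h3 : h r r = 0 := Complex.ext h0 h2
  have h4 : ∀ t : ℝ, (h (s + ((t : ℂ) * starRingEnd ℂ c) • r)
      (s + ((t : ℂ) * starRingEnd ℂ c) • r)).re = (h s s).re + 2 * t * Complex.normSq c := by
    intro t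
    simp only [map_add, LinearMap.add_apply, map_smul, LinearMap.smul_apply,
      LinearMap.map_smulₛₗ, h1, h3, ← hc]
    simp only [smul_eq_mul, map_mul, Complex.conj_conj, Complex.conj_ofReal, mul_zero, add_zero,
      Complex.add_re]
    have h5 : (t : ℂ) * c * starRingEnd ℂ c = ((t * Complex.normSq c : ℝ) : ℂ) := by
      rw [mul_assoc, Complex.mul_conj]
      push_cast
      ring
    have h6 : (t : ℂ) * starRingEnd ℂ c * c = ((t * Complex.normSq c : ℝ) : ℂ) := by
      rw [mul_assoc, mul_comm (starRingEnd ℂ c), Complex.mul_conj]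
      push_cast
      ring
    rw [h5, h6, Complex.ofReal_re]
    ring
  have h7 := hP _ (P.add_mem hs
    (P.smul_mem (((-((h s s).re + 1) / (2 * Complex.normSq c) : ℝ) : ℂ) * starRingEnd ℂ c) hr))
  rw [h4] at h7
  have h8 : 2 * (-((h s s).re + 1) / (2 * Complex.normSq c)) * Complex.normSq c =
      -((h s s).re + 1) := by
    field_simp
  rw [h8] at h7
  linarith

/-- The inertia inequality. -/
theorem semidefinite_le {W P N : Submodule ℂ V}
    (hsymm : ∀ x ∈ W, ∀ y ∈ W, starRingEnd ℂ (h x y) = h y x)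
    (hnd : ∀ x ∈ W, (∀ y ∈ W, h x y = 0) → x = 0)
    (hPW : P ≤ W) (hNW : N ≤ W) (hP : ∀ x ∈ P, 0 ≤ (h x x).re) (hN : ∀ x ∈ N, (h x x).re ≤ 0) :
    finrank ℂ P + finrank ℂ N ≤ finrank ℂ W := by
  classical
  set R := P ⊓ N with hR
  set T := P ⊔ N with hT
  have hTW : T ≤ W := sup_le hPW hNW
  have hRW : R ≤ W := inf_le_left.trans hPW
  have hRT : ∀ r ∈ R, ∀ t ∈ T, h t r = 0 := by
    intro r hr t ht
    have h0 : (h r r).re = 0 := le_antisymm (hN r hr.2) (hP r hr.1)
    obtain ⟨a, ha, b, hb, rfl⟩ := Submodule.mem_sup.1 ht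
    have h1 : h r a = 0 := cs h (fun x hx y hy => hsymm x (hPW hx) y (hPW hy)) hP hr.1 ha h0
    have h2 : (-h) r b = 0 := by
      refine cs (-h) (P := N) ?_ ?_ hr.2 hb ?_
      · intro x hx y hy
        simp only [LinearMap.neg_apply, map_neg, hsymm x (hNW hx) y (hNW hy)]
      · intro x hx
        simp only [LinearMap.neg_apply, Complex.neg_re]
        linarith [hN x hx]
      · simp only [LinearMap.neg_apply, Complex.neg_re]
        linarith
    have h2' : h r b = 0 := by
      simpa using h2
    rw [map_add, LinearMap.add_apply, ← hsymm r (hRW hr) a (hPW ha),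
      ← hsymm r (hRW hr) b (hNW hb), h1, h2', map_zero, add_zero]
  -- the pairing with a basis of `R`
  let r := finBasis ℂ R
  let G : W →ₗ[ℂ] (Fin (finrank ℂ R) → ℂ) :=
    LinearMap.pi fun i => (h.flip (r i : V)).comp W.subtype
  have hG : ∀ w i, G w i = h (w : V) (r i : V) := fun w i => rfl
  have hsurj : LinearMap.range G = ⊤ := by
    by_contra hcon
    obtain ⟨f, hf, hf'⟩ := Submodule.exists_le_ker_of_lt_top _ (lt_top_iff_ne_top.2 hcon)
    apply hf
    let c : Fin (finrank ℂ R) → ℂ := fun i => f (Pi.single i 1)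
    have hfc : ∀ x, f x = ∑ i, x i * c i := by
      intro x
      conv_lhs => rw [pi_eq_sum_univ' x]
      rw [map_sum]
      refine Finset.sum_congr rfl fun i _ => ?_
      rw [map_smul, smul_eq_mul]
    let v : V := ∑ i, starRingEnd ℂ (c i) • (r i : V)
    have hvR : v ∈ R := Submodule.sum_mem _ fun i _ => Submodule.smul_mem _ _ (r i).2
    have hv : ∀ w ∈ W, h w v = 0 := by
      intro w hw
      have h1 : f (G ⟨w, hw⟩) = 0 := hf' ⟨_, rfl⟩
      rw [hfc] at h1
      rw [map_sum, ← h1]
      refine Finset.sum_congr rfl fun i _ => ?_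
      rw [LinearMap.map_smulₛₗ, Complex.conj_conj, smul_eq_mul, hG, mul_comm]
    have hv0 : v = 0 := hnd v (hRW hvR) fun y hy => by
      rw [← hsymm y hy v (hRW hvR), hv y hy, map_zero]
    have hv1 : (∑ i, starRingEnd ℂ (c i) • r i : R) = 0 := by
      apply Subtype.ext
      rw [Submodule.coe_sum]
      simpa using hv0
    have hv2 := Fintype.linearIndependent_iff.1 r.linearIndependent _ hv1
    apply LinearMap.ext
    intro x
    rw [hfc, LinearMap.zero_apply]
    refine Finset.sum_eq_zero fun i _ => ?_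
    have h3 : c i = 0 := by
      have h4 := congrArg (starRingEnd ℂ) (hv2 i)
      rwa [Complex.conj_conj, map_zero] at h4
    rw [h3, mul_zero]
  have h1 : finrank ℂ (LinearMap.range G) + finrank ℂ (LinearMap.ker G) = finrank ℂ W :=
    LinearMap.finrank_range_add_finrank_ker G
  have h2 : finrank ℂ (LinearMap.range G) = finrank ℂ R := by
    rw [hsurj, finrank_top, Module.finrank_fin_fun]
  have h3 : finrank ℂ T ≤ finrank ℂ (LinearMap.ker G) := by
    let g : T →ₗ[ℂ] LinearMap.ker G :=
      (Submodule.inclusion hTW).codRestrict (LinearMap.ker G) (by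
        intro t
        rw [LinearMap.mem_ker]
        funext i
        exact hRT _ (r i).2 _ t.2)
    refine LinearMap.finrank_le_finrank_of_injective (f := g) fun a b hab => ?_
    have h4 := congrArg (fun z : LinearMap.ker G => ((z : W) : V)) hab
    exact Subtype.ext h4
  have h4 : finrank ℂ T + finrank ℂ R = finrank ℂ P + finrank ℂ N :=
    Submodule.finrank_sup_add_finrank_inf_eq P N
  omega

end Pool.Agent.TH125.Der
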