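import Pool.Agent.TH125.Der.Mukai
import Pool.Agent.TH125.Der.Semi

/-!
# Dimensions
-/

namespace Pool.Agent.TH125.Der

open Module Finset

namespace Cohomology

variable {n : ℕ} (X : Cohomology n)

theorem dim_le {p q p' q' : ℕ} (hp : p + p' = n) (hq : q + q' = n) :
    X.hodgeNumber p q ≤ X.hodgeNumber p' q' := by
  let f : X.piece p q →ₗ[ℂ] Dual ℂ (X.piece p' q') :=
    (X.int.compl₁₂ (X.piece p q).subtype (X.piece p' q').subtype)
  have hf : Function.Injective f := by
    rw [← LinearMap.ker_eq_bot, LinearMap.ker_eq_bot']
    intro x hx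
    apply Subtype.ext
    refine X.int_nondeg _ fun y => ?_
    refine X.ind (P := fun y => X.int x y = 0) (map_zero _) ?_ ?_ y
    · intro a b ha hb
      rw [map_add, ha, hb, add_zero]
    · intro a b y hy
      by_cases h : (p + a, q + b) = (n, n)
      · have h1 := congrArg Prod.fst h
        have h2 := congrArg Prod.snd h
        simp only at h1 h2
        obtain rfl : a = p' := by omega
        obtain rfl : b = q' := by omega
        exact LinearMap.congr_fun hx ⟨y, hy⟩
      · exact X.int_eq_zero x.2 hy h
  have h1 := LinearMap.finrank_le_finrank_of_injective hf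
  rwa [Subspace.dual_finrank_eq] at h1

theorem conj_le (p q : ℕ) : X.hodgeNumber p q ≤ X.hodgeNumber q p := by
  let b := finBasis ℂ (X.piece p q)
  let v : Fin (finrank ℂ (X.piece p q)) → X.piece q p :=
    fun i => ⟨X.conj (b i), X.conj_mem (b i).2⟩
  have hv : LinearIndependent ℂ v := by
    rw [Fintype.linearIndependent_iff]
    intro c hc i
    have h1 : (∑ i, starRingEnd ℂ (c i) • b i : X.piece p q) = 0 := by
      apply Subtype.ext
      have h2 := congrArg (fun z : X.piece q p => X.conj (z : X.H)) hc
      simp only [Submodule.coe_sum, Submodule.coe_smul, map_sum, LinearMap.map_smulₛₗ,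
        Submodule.coe_zero, map_zero, v, X.conj_conj] at h2 ⊢
      exact h2
    have h2 := Fintype.linearIndependent_iff.1 b.linearIndependent _ h1 i
    have h3 := congrArg (starRingEnd ℂ) h2
    rwa [Complex.conj_conj, map_zero] at h3
  have h1 := hv.fintype_card_le_finrank
  rwa [Fintype.card_fin] at h1

theorem conj_eq (p q : ℕ) : X.hodgeNumber p q = X.hodgeNumber q p :=
  le_antisymm (X.conj_le p q) (X.conj_le q p)

theorem dim_eq {p q p' q' : ℕ} (hp : p + p' = n) (hq : q + q' = n) :
    X.hodgeNumber p q = X.hodgeNumber p' q' :=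
  le_antisymm (X.dim_le hp hq) (X.dim_le (by omega) (by omega))

theorem hodge_large {p q : ℕ} (h : n < p ∨ n < q) : X.hodgeNumber p q = 0 := by
  have h1 : X.piece p q = ⊥ := by
    rw [Submodule.eq_bot_iff]
    intro x hx
    exact X.piece_large h hx
  rw [hodgeNumber, h1, finrank_bot]

/-- The sum of the first pieces of a column. -/
def low (a b t : ℕ) : Submodule ℂ X.H := (range t).sup fun s => X.piece (a + s) (b + s)

theorem low_zero (a b : ℕ) : X.low a b 0 = ⊥ := by
  rw [low, range_zero, sup_empty]

theorem low_succ (a b t : ℕ) :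
    X.low a b (t + 1) = X.piece (a + t) (b + t) ⊔ X.low a b t := by
  rw [low, range_add_one, sup_insert]
  rfl

theorem piece_le_low {a b s t : ℕ} (h : s < t) : X.piece (a + s) (b + s) ≤ X.low a b t :=
  Finset.le_sup (f := fun s => X.piece (a + s) (b + s)) (mem_range.2 h)

theorem disjoint_low (a b t : ℕ) : Disjoint (X.piece (a + t) (b + t)) (X.low a b t) := by
  have h1 : iSupIndep fun s : ℕ => X.piece (a + s) (b + s) := by
    have h2 := X.internal.submodule_iSupIndep
    exact h2.comp (f := fun s : ℕ => (a + s, b + s)) (fun s s' h => by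
      have h3 := congrArg Prod.fst h
      simp only at h3
      omega)
  have h2 := h1 t
  refine h2.mono_right ?_
  refine Finset.sup_le fun s hs => ?_
  exact le_iSup₂_of_le (f := fun s (_ : s ≠ t) => X.piece (a + s) (b + s)) s
    (by rw [mem_range] at hs; omega) le_rfl

theorem finrank_low (a b t : ℕ) :
    finrank ℂ (X.low a b t) = ∑ s ∈ range t, X.hodgeNumber (a + s) (b + s) := by
  induction t with
  | zero => rw [low_zero, finrank_bot, range_zero, sum_empty]
  | succ t ih =>
    have h1 := Submodule.finrank_sup_add_finrank_inf_eq (X.piece (a + t) (b + t)) (X.low a b t)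
    rw [(X.disjoint_low a b t).eq_bot, finrank_bot, add_zero, ← low_succ] at h1
    rw [h1, ih, sum_range_succ, hodgeNumber]
    ring

/-- The column as a finite sum. -/
theorem column_eq {a b t : ℕ} (hab : a = 0 ∨ b = 0) (hK : a + b + t = n) :
    X.column a b = X.low a b (t + 1) := by
  apply le_antisymm
  · refine iSup_le fun p => iSup_le fun q => iSup_le fun h => ?_
    by_cases hn : n < p ∨ n < q
    · intro x hx
      rw [X.piece_large hn hx]
      exact Submodule.zero_mem _
    · obtain ⟨s, rfl⟩ : ∃ s, p = a + s := ⟨p - a, by omega⟩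
      obtain rfl : q = b + s := by omega
      exact X.piece_le_low (by omega)
  · refine Finset.sup_le fun s _ => ?_
    exact le_iSup_of_le (a + s) (le_iSup_of_le (b + s) (le_iSup_of_le (by omega) le_rfl))

theorem column_shift {a b p q : ℕ} (h : p + b = q + a) : X.column p q = X.column a b := by
  apply le_antisymm
  · refine iSup_le fun p' => iSup_le fun q' => iSup_le fun h' => ?_
    exact le_iSup_of_le p' (le_iSup_of_le q' (le_iSup_of_le (by omega) le_rfl))
  · refine iSup_le fun p' => iSup_le fun q' => iSup_le fun h' => ?_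
    exact le_iSup_of_le p' (le_iSup_of_le q' (le_iSup_of_le (by omega) le_rfl))

end Cohomology

end Pool.Agent.TH125.Der
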