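import Pool.Agent.TH125.Der.Main

/-!
# Fourfolds
-/

namespace Pool.Agent.TH125.Der

open Module Finset

theorem four_aux (f g : ℕ → ℕ → ℕ)
    (fc : ∀ p q, f p q = f q p) (gc : ∀ p q, g p q = g q p)
    (fd : ∀ p q, p ≤ 4 → q ≤ 4 → f p q = f (4 - p) (4 - q))
    (gd : ∀ p q, p ≤ 4 → q ≤ 4 → g p q = g (4 - p) (4 - q))
    (h00 : f 0 0 = g 0 0) (h11 : f 1 1 = g 1 1) (h22 : f 2 2 = g 2 2) (h20 : f 2 0 = g 2 0)
    (h31 : f 3 1 = g 3 1) (h40 : f 4 0 = g 4 0) :
    (∀ p q, p ≤ 4 → q ≤ 4 → Even (p + q) → f p q = g p q) ∧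
      (f 1 0 = g 1 0 → f 2 1 = g 2 1 → f 3 0 = g 3 0 → ∀ p q, p ≤ 4 → q ≤ 4 → f p q = g p q) := by
  have f1 := fc 1 0
  have f2 := fc 2 0
  have f3 := fc 3 0
  have f4 := fc 4 0
  have f5 := fc 2 1
  have f6 := fc 3 1
  have f7 := fc 4 1
  have f8 := fc 3 2
  have f9 := fc 4 2
  have f10 := fc 4 3
  have g1 := gc 1 0
  have g2 := gc 2 0
  have g3 := gc 3 0
  have g4 := gc 4 0
  have g5 := gc 2 1
  have g6 := gc 3 1
  have g7 := gc 4 1
  have g8 := gc 3 2
  have g9 := gc 4 2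
  have g10 := gc 4 3
  have f11 : f 4 4 = f 0 0 := fd 4 4 (by norm_num) (by norm_num)
  have f12 : f 3 3 = f 1 1 := fd 3 3 (by norm_num) (by norm_num)
  have f13 : f 4 2 = f 0 2 := fd 4 2 (by norm_num) (by norm_num)
  have f14 : f 4 3 = f 0 1 := fd 4 3 (by norm_num) (by norm_num)
  have f15 : f 4 1 = f 0 3 := fd 4 1 (by norm_num) (by norm_num)
  have f16 : f 3 2 = f 1 2 := fd 3 2 (by norm_num) (by norm_num)
  have g11 : g 4 4 = g 0 0 := gd 4 4 (by norm_num) (by norm_num)
  have g12 : g 3 3 = g 1 1 := gd 3 3 (by norm_num) (by norm_num)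
  have g13 : g 4 2 = g 0 2 := gd 4 2 (by norm_num) (by norm_num)
  have g14 : g 4 3 = g 0 1 := gd 4 3 (by norm_num) (by norm_num)
  have g15 : g 4 1 = g 0 3 := gd 4 1 (by norm_num) (by norm_num)
  have g16 : g 3 2 = g 1 2 := gd 3 2 (by norm_num) (by norm_num)
  constructor
  · intro p q hp hq hpq
    interval_cases p <;> interval_cases q <;>
      first
      | omega
      | (exfalso; revert hpq; decide)
  · intro h10 h21 h30 p q hp hq
    interval_cases p <;> interval_cases q <;> omega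

variable {X Y : Cohomology 4}

/-- **Fourfolds.** -/
theorem fourfolds (Φ : Transform X Y) :
    (∀ p q, Even (p + q) → X.hodgeNumber p q = Y.hodgeNumber p q) ∧
      (X.hodgeNumber 1 0 = Y.hodgeNumber 1 0 → ∀ p q, X.hodgeNumber p q = Y.hodgeNumber p q) := by
  have h00 : X.hodgeNumber 0 0 = Y.hodgeNumber 0 0 := by
    rw [Cohomology.hodgeNumber, Cohomology.hodgeNumber, X.connected, Y.connected]
  have r22 := relations Φ (p := 2) (q := 2) rfl
  have r31 := relations Φ (p := 3) (q := 1) rfl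
  have r40 := relations Φ (p := 4) (q := 0) rfl
  have c10 := column_sum Φ (a := 1) (b := 0) (t := 3) (Or.inr rfl) rfl
  have c30 := column_sum Φ (a := 3) (b := 0) (t := 1) (Or.inr rfl) rfl
  have e1 : (range (min 2 2 + 1)).filter (fun i => Odd i) = {1} := by decide
  have e2 : (range (min 2 2 + 1)).filter (fun i => Even i ∧ 2 ≤ i) = {2} := by decide
  have e3 : (range (min 3 1 + 1)).filter (fun i => Odd i) = {1} := by decide
  have e4 : (range (min 3 1 + 1)).filter (fun i => Even i ∧ 2 ≤ i) = ∅ := by decide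
  have e5 : (range (min 4 0 + 1)).filter (fun i => Odd i) = ∅ := by decide
  have e6 : (range (min 4 0 + 1)).filter (fun i => Even i ∧ 2 ≤ i) = ∅ := by decide
  simp only [Cohomology.oddDiagonal, Cohomology.evenDiagonal, e1, e2, e3, e4, e5, e6,
    sum_singleton, sum_empty, mul_zero, add_zero] at r22 r31 r40
  norm_num at r22 r31 r40
  simp only [sum_range_succ, range_zero, sum_empty, zero_add, add_zero] at c10 c30
  norm_num at c10 c30
  have fd : ∀ Z : Cohomology 4, ∀ p q, p ≤ 4 → q ≤ 4 →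
      Z.hodgeNumber p q = Z.hodgeNumber (4 - p) (4 - q) := by
    intro Z p q hp hq
    exact Z.dim_eq (by omega) (by omega)
  obtain ⟨h1, h2⟩ := four_aux X.hodgeNumber Y.hodgeNumber X.conj_eq Y.conj_eq (fd X) (fd Y) h00
    r22.1 (by omega) r31.1 r31.2 r40
  have hlarge : ∀ Z : Cohomology 4, ∀ p q, ¬ (p ≤ 4 ∧ q ≤ 4) → Z.hodgeNumber p q = 0 := by
    intro Z p q h
    exact Z.hodge_large (by omega)
  constructor
  · intro p q hpq
    by_cases h : p ≤ 4 ∧ q ≤ 4
    · exact h1 p q h.1 h.2 hpq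
    · rw [hlarge X p q h, hlarge Y p q h]
  · intro h10 p q
    by_cases h : p ≤ 4 ∧ q ≤ 4
    · refine h2 h10 ?_ ?_ p q h.1 h.2
      · have a1 := fd X 3 2 (by norm_num) (by norm_num)
        have a2 := fd X 4 3 (by norm_num) (by norm_num)
        have a3 := fd Y 3 2 (by norm_num) (by norm_num)
        have a4 := fd Y 4 3 (by norm_num) (by norm_num)
        norm_num at a1 a2 a3 a4
        rw [X.conj_eq 1 2] at a1
        rw [Y.conj_eq 1 2] at a3
        rw [X.conj_eq 0 1] at a2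
        rw [Y.conj_eq 0 1] at a4
        omega
      · have a1 := fd X 4 1 (by norm_num) (by norm_num)
        have a3 := fd Y 4 1 (by norm_num) (by norm_num)
        norm_num at a1 a3
        rw [X.conj_eq 0 3] at a1
        rw [Y.conj_eq 0 3] at a3
        omega
    · rw [hlarge X p q h, hlarge Y p q h]

end Pool.Agent.TH125.Der
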