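import Pool.Agent.TH125.Der.Chain

/-!
# The index of the hermitian form on a column
-/

namespace Pool.Agent.TH125.Der

open Module Finset

namespace Cohomology

variable {n : ℕ} (X : Cohomology n)

/-- The hermitian form with the sign. -/
noncomputable def form (b K : ℕ) : X.H →ₗ[ℂ] X.H →ₛₗ[starRingEnd ℂ] ℂ := eps n b K • X.herm

theorem form_apply (b K : ℕ) (x y : X.H) : X.form b K x y = eps n b K * X.herm x y := rfl

/-- Partial sums. -/
def evenSum (K : ℕ) (f : ℕ → ℕ) (t : ℕ) : ℕ := ∑ s ∈ range t, if Even (K - s) then f s else 0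

/-- Partial sums. -/
def oddSum (K : ℕ) (f : ℕ → ℕ) (t : ℕ) : ℕ := ∑ s ∈ range t, if Even (K - s) then 0 else f s

/-- The sum of a subspace with the primitive classes. -/
theorem add_top {a b K s : ℕ} (hK : a + b + 2 * K = n) (hs : s ≤ K) {P : Submodule ℂ X.H}
    (hP : P ≤ X.cont a b K s) :
    finrank ℂ (P ⊔ X.top a b K s : Submodule ℂ X.H) =
        finrank ℂ P + finrank ℂ (X.prim a b K s) ∧
      ∀ x ∈ P, ∀ y ∈ X.top a b K s,
        X.form b K (x + y) (x + y) = X.form b K x x + X.form b K y y := by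
  constructor
  · have h1 := Submodule.finrank_sup_add_finrank_inf_eq P (X.top a b K s)
    have h2 : P ⊓ X.top a b K s = ⊥ := by
      rw [Submodule.eq_bot_iff]
      rintro v ⟨hv, hv'⟩
      by_contra h0
      have h3 := X.top_pos hK hs hv' h0
      rw [(X.top_orth hs hv' (hP hv)).1, mul_zero, mul_zero, Complex.zero_re] at h3
      exact lt_irrefl _ h3
    rw [h2, finrank_bot, add_zero, X.top_dim hK hs] at h1
    exact h1
  · intro x hx y hy
    have h1 := X.top_orth hs hy (hP hx)
    simp only [form_apply, map_add, LinearMap.add_apply, h1.1, h1.2]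
    ring

theorem chain {a b K : ℕ} (hab : a = 0 ∨ b = 0) (hK : a + b + 2 * K = n) (t : ℕ)
    (ht : t ≤ K + 1) :
    ∃ P N : Submodule ℂ X.H, P ≤ X.cont a b K t ∧ N ≤ X.cont a b K t ∧
      (∀ x ∈ P, 0 ≤ (X.form b K x x).re) ∧ (∀ x ∈ N, (X.form b K x x).re ≤ 0) ∧
      evenSum K (fun s => X.hodgeNumber (a + s) (b + s)) t ≤
        finrank ℂ P + evenSum K (prev fun s => X.hodgeNumber (a + s) (b + s)) t ∧
      oddSum K (fun s => X.hodgeNumber (a + s) (b + s)) t ≤
        finrank ℂ N + oddSum K (prev fun s => X.hodgeNumber (a + s) (b + s)) t := by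
  induction t with
  | zero =>
    refine ⟨⊥, ⊥, bot_le, bot_le, ?_, ?_, ?_, ?_⟩
    · intro x hx
      rw [(Submodule.mem_bot ℂ).1 hx, map_zero, Complex.zero_re]
    · intro x hx
      rw [(Submodule.mem_bot ℂ).1 hx, map_zero, Complex.zero_re]
    · simp [evenSum]
    · simp [oddSum]
  | succ t ih =>
    obtain ⟨P, N, hP, hN, hP', hN', hdP, hdN⟩ := ih (by omega)
    have hs : t ≤ K := by omega
    have hdim := X.prim_dim hab hK hs
    have htop : X.top a b K t ≤ X.cont a b K (t + 1) := by
      rw [cont_succ]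
      exact le_sup_of_le_left (Submodule.map_mono inf_le_left)
    have hcont : X.cont a b K t ≤ X.cont a b K (t + 1) := by
      rw [cont_succ]
      exact le_sup_right
    by_cases hev : Even (K - t)
    · obtain ⟨h1, h2⟩ := X.add_top hK hs hP
      refine ⟨P ⊔ X.top a b K t, N, sup_le (hP.trans hcont) htop, hN.trans hcont, ?_, hN', ?_, ?_⟩
      · intro z hz
        obtain ⟨x, hx, y, hy, rfl⟩ := Submodule.mem_sup.1 hz
        rw [h2 x hx y hy, Complex.add_re]
        refine add_nonneg (hP' x hx) ?_
        by_cases hy0 : y = 0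
        · rw [hy0, map_zero, Complex.zero_re]
        · have h3 := X.top_pos hK hs hy hy0
          rw [hev.neg_one_pow, one_mul, ← form_apply] at h3
          exact h3.le
      · rw [h1]
        simp only [evenSum, sum_range_succ, if_pos hev] at hdP ⊢
        omega
      · simpa only [oddSum, sum_range_succ, if_pos hev, add_zero] using hdN
    · obtain ⟨h1, h2⟩ := X.add_top hK hs hN
      refine ⟨P, N ⊔ X.top a b K t, hP.trans hcont, sup_le (hN.trans hcont) htop, hP', ?_, ?_, ?_⟩
      · intro z hz
        obtain ⟨x, hx, y, hy, rfl⟩ := Submodule.mem_sup.1 hz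
        rw [h2 x hx y hy, Complex.add_re]
        refine add_nonpos (hN' x hx) ?_
        by_cases hy0 : y = 0
        · rw [hy0, map_zero, Complex.zero_re]
        · have h3 := X.top_pos hK hs hy hy0
          rw [(Nat.not_even_iff_odd.1 hev).neg_one_pow, neg_one_mul, Complex.neg_re,
            ← form_apply] at h3
          linarith
      · simpa only [evenSum, sum_range_succ, if_neg hev, add_zero] using hdP
      · rw [h1]
        simp only [oddSum, sum_range_succ, if_neg hev] at hdN ⊢
        omega

/-- Comparison of the partial sums. -/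
theorem sums (K : ℕ) (f : ℕ → ℕ) (t : ℕ) (ht : t ≤ K) :
    evenSum K (prev f) (t + 1) = oddSum K f t ∧ oddSum K (prev f) (t + 1) = evenSum K f t := by
  induction t with
  | zero => simp [evenSum, oddSum, prev]
  | succ t ih =>
    obtain ⟨h1, h2⟩ := ih (by omega)
    have h3 : Even (K - (t + 1)) ↔ ¬ Even (K - t) := by
      have h4 : K - t = (K - (t + 1)) + 1 := by omega
      rw [h4, Nat.even_add_one, not_not]
    constructor
    · rw [evenSum, sum_range_succ, ← evenSum, h1, oddSum, oddSum, sum_range_succ]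
      congr 1
      by_cases h : Even (K - t)
      · rw [if_pos h, if_neg (h3.not.2 (not_not.2 h))]
      · rw [if_neg h, if_pos (h3.2 h)]
        rfl
    · rw [oddSum, sum_range_succ, ← oddSum, h2, evenSum, evenSum, sum_range_succ]
      congr 1
      by_cases h : Even (K - t)
      · rw [if_pos h, if_neg (h3.not.2 (not_not.2 h))]
        rfl
      · rw [if_neg h, if_pos (h3.2 h)]

theorem even_add_odd (K : ℕ) (f : ℕ → ℕ) (t : ℕ) :
    evenSum K f t + oddSum K f t = ∑ s ∈ range t, f s := by
  rw [evenSum, oddSum, ← sum_add_distrib]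
  refine sum_congr rfl fun s _ => ?_
  by_cases h : Even (K - s)
  · rw [if_pos h, if_pos h, add_zero]
  · rw [if_neg h, if_neg h, zero_add]

/-- The low part is orthogonal to itself and to the middle. -/
theorem low_orth {a b K : ℕ} (hK : a + b + 2 * K = n) {x y : X.H}
    (hx : x ∈ X.low a b K) (hy : y ∈ X.low a b (K + 1)) :
    X.herm x y = 0 ∧ X.herm y x = 0 := by
  have hle : X.low a b K ≤ (LinearMap.ker (X.herm.flip y) ⊓ LinearMap.ker (X.herm y) :
      Submodule ℂ X.H) := by
    refine Finset.sup_le fun s hs => ?_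
    rw [mem_range] at hs
    intro x hx
    have hle : X.low a b (K + 1) ≤ (LinearMap.ker (X.herm x) ⊓ LinearMap.ker (X.herm.flip x) :
        Submodule ℂ X.H) := by
      refine Finset.sup_le fun s' hs' => ?_
      rw [mem_range] at hs'
      intro y hy
      constructor
      · refine X.herm_zero hx hy fun h => ?_
        have h1 := congrArg Prod.fst h
        simp only at h1
        omega
      · change X.herm y x = 0
        refine X.herm_zero hy hx fun h => ?_
        have h1 := congrArg Prod.fst h
        simp only at h1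
        omega
    exact ⟨(hle hy).1, (hle hy).2⟩
  exact ⟨(hle hx).1, (hle hx).2⟩

theorem cont_le {a b K : ℕ} (t : ℕ) (ht : t ≤ K + 1) :
    X.cont a b K t ≤ X.piece (a + K) (b + K) := by
  refine Finset.sup_le fun s hs => ?_
  rw [mem_range] at hs
  rintro _ ⟨z, hz, rfl⟩
  have h1 := X.lef_pow_mem hz (K - s)
  have h2 : a + s + (K - s) = a + K := by omega
  have h3 : b + s + (K - s) = b + K := by omega
  rwa [h2, h3] at h1

/-- Adding the low part to a subspace of the middle. -/
theorem add_low {a b K : ℕ} (hK : a + b + 2 * K = n) {P : Submodule ℂ X.H}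
    (hP : P ≤ X.piece (a + K) (b + K)) :
    finrank ℂ (P ⊔ X.low a b K : Submodule ℂ X.H) =
        finrank ℂ P + ∑ s ∈ range K, X.hodgeNumber (a + s) (b + s) ∧
      ∀ x ∈ P, ∀ y ∈ X.low a b K, X.form b K (x + y) (x + y) = X.form b K x x := by
  constructor
  · have h1 := Submodule.finrank_sup_add_finrank_inf_eq P (X.low a b K)
    have h2 : P ⊓ X.low a b K = ⊥ := by
      rw [← disjoint_iff]
      exact (X.disjoint_low a b K).mono_left hP
    rw [h2, finrank_bot, add_zero, X.finrank_low] at h1
    exact h1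
  · intro x hx y hy
    have hlow : X.low a b K ≤ X.low a b (K + 1) := by
      rw [low_succ]
      exact le_sup_right
    have hx' : x ∈ X.low a b (K + 1) := X.piece_le_low (Nat.lt_succ_self K) (hP hx)
    have h1 := X.low_orth hK hy hx'
    have h2 := X.low_orth hK hy (hlow hy)
    simp only [form_apply, map_add, LinearMap.add_apply, h1.1, h1.2, h2.1]
    ring

/-- **The index of the form on a column.** -/
theorem inertia {a b K : ℕ} (hab : a = 0 ∨ b = 0) (hK : a + b + 2 * K = n) :
    ∃ P N : Submodule ℂ X.H, P ≤ X.column a b ∧ N ≤ X.column a b ∧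
      (∀ x ∈ P, 0 ≤ (X.form b K x x).re) ∧ (∀ x ∈ N, (X.form b K x x).re ≤ 0) ∧
      X.hodgeNumber (a + K) (b + K) +
          2 * evenSum K (fun s => X.hodgeNumber (a + s) (b + s)) K ≤ finrank ℂ P ∧
      2 * oddSum K (fun s => X.hodgeNumber (a + s) (b + s)) K ≤ finrank ℂ N := by
  obtain ⟨P, N, hP, hN, hP', hN', hdP, hdN⟩ := X.chain hab hK (K + 1) le_rfl
  have hPm := hP.trans (X.cont_le (K + 1) le_rfl)
  have hNm := hN.trans (X.cont_le (K + 1) le_rfl)
  obtain ⟨h1, h2⟩ := X.add_low hK hPm
  obtain ⟨h3, h4⟩ := X.add_low hK hNm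
  have hmid : X.piece (a + K) (b + K) ≤ X.column a b := by
    rw [X.column_eq hab hK]
    exact X.piece_le_low (by omega)
  have hlow : X.low a b K ≤ X.column a b := by
    rw [X.column_eq hab hK]
    refine Finset.sup_le fun s hs => ?_
    rw [mem_range] at hs
    exact X.piece_le_low (by omega)
  obtain ⟨h5, h6⟩ := sums K (fun s => X.hodgeNumber (a + s) (b + s)) K le_rfl
  have h7 := even_add_odd K (fun s => X.hodgeNumber (a + s) (b + s)) K
  have h8 : evenSum K (fun s => X.hodgeNumber (a + s) (b + s)) (K + 1) =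
      evenSum K (fun s => X.hodgeNumber (a + s) (b + s)) K + X.hodgeNumber (a + K) (b + K) := by
    rw [evenSum, sum_range_succ, Nat.sub_self, if_pos (by decide : Even 0), ← evenSum]
  have h9 : oddSum K (fun s => X.hodgeNumber (a + s) (b + s)) (K + 1) =
      oddSum K (fun s => X.hodgeNumber (a + s) (b + s)) K := by
    rw [oddSum, sum_range_succ, Nat.sub_self, if_pos (by decide : Even 0), ← oddSum, add_zero]
  refine ⟨P ⊔ X.low a b K, N ⊔ X.low a b K, sup_le (hPm.trans hmid) hlow,
    sup_le (hNm.trans hmid) hlow, ?_, ?_, ?_, ?_⟩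
  · intro z hz
    obtain ⟨x, hx, y, hy, rfl⟩ := Submodule.mem_sup.1 hz
    rw [h2 x hx y hy]
    exact hP' x hx
  · intro z hz
    obtain ⟨x, hx, y, hy, rfl⟩ := Submodule.mem_sup.1 hz
    rw [h4 x hx y hy]
    exact hN' x hx
  · rw [h1]
    omega
  · rw [h3]
    omega

end Cohomology

end Pool.Agent.TH125.Der
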