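import Pool.Agent.TH125.Der.Basic

/-!
# Mukai isometries are isometries for the pairing without the factor `exp(c₁ / 2)`
-/

namespace Pool.Agent.TH125.Der

open Module Finset

namespace Cohomology

variable {n : ℕ} (X : Cohomology n)

/-- The pairings `∫ exp(t c₁) ∪ x^∨ ∪ y`. -/
noncomputable def pair (t : ℂ) (x y : X.H) : ℂ := X.int (X.expChern t (X.dual x)) y

theorem mukai_eq (x y : X.H) : X.mukai x y = X.pair (1 / 2) x y := rfl

theorem pair_add (s t : ℂ) (x y : X.H) : X.pair (s + t) x y = X.pair s x (X.expChern t y) := by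
  rw [pair, pair, add_comm, X.expChern_add, Module.End.mul_apply, X.expChern_int]

theorem mukai_swap (x y : X.H) : X.mukai y x = (-1) ^ n * X.pair (-(1 / 2)) x y := by
  have h1 : X.expChern (1 / 2) (X.dual (X.dual x)) =
      X.dual (X.expChern (-(1 / 2)) (X.dual x)) := by
    rw [X.dual_expChern, neg_neg]
  calc X.mukai y x = X.int (X.expChern (1 / 2) (X.dual y)) x := rfl
    _ = X.int (X.dual (X.dual x)) (X.expChern (1 / 2) (X.dual y)) := X.int_swap x _
    _ = X.int (X.expChern (1 / 2) (X.dual (X.dual x))) (X.dual y) := (X.expChern_int _ _ _).symm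
    _ = X.int (X.dual (X.expChern (-(1 / 2)) (X.dual x))) (X.dual y) := by rw [h1]
    _ = (-1) ^ n * X.pair (-(1 / 2)) x y := X.dual_int _ _

theorem dual_zero_of {x : X.H} (h : X.dual x = 0) : x = 0 := by
  refine X.int_nondeg x fun y => ?_
  have h1 := X.dual_int x y
  rw [h, map_zero, LinearMap.zero_apply] at h1
  exact (mul_eq_zero.1 h1.symm).resolve_left (pow_ne_zero _ (by norm_num))

theorem expChern_neg_self (t : ℂ) (x : X.H) : X.expChern t (X.expChern (-t) x) = x := by
  rw [← Module.End.mul_apply, ← X.expChern_add, add_neg_cancel, X.expChern_zero]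

/-- The Mukai pairing is nondegenerate (on the right). -/
theorem mukai_nondeg {y : X.H} (h : ∀ x, X.mukai x y = 0) : y = 0 := by
  have h1 : ∀ x, X.pair (-(1 / 2)) y x = 0 := by
    intro x
    have h2 := X.mukai_swap y x
    rw [h x] at h2
    exact (mul_eq_zero.1 h2.symm).resolve_left (pow_ne_zero _ (by norm_num))
  have h3 : X.expChern (-(1 / 2)) (X.dual y) = 0 := X.int_nondeg _ h1
  have h4 : X.dual y = 0 := by
    have h5 := X.expChern_neg_self (1 / 2) (X.dual y)
    rw [h3, map_zero] at h5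
    exact h5.symm
  exact X.dual_zero_of h4

theorem mukai_sub (x y y' : X.H) : X.mukai x (y - y') = X.mukai x y - X.mukai x y' := by
  simp only [mukai, map_sub]

end Cohomology

namespace Transform

variable {n : ℕ} {X Y : Cohomology n} (Φ : Transform X Y)

/-- The transform commutes with the Serre functor. -/
theorem map_serre (y : X.H) : Φ.map (X.expChern (-1) y) = Y.expChern (-1) (Φ.map y) := by
  refine sub_eq_zero.1 (Y.mukai_nondeg fun x => ?_)
  obtain ⟨x, rfl⟩ := Φ.map.surjective x
  rw [Y.mukai_sub, Φ.map_mukai, X.mukai_eq, Y.mukai_eq, ← X.pair_add, ← Y.pair_add]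
  have h1 := Y.mukai_swap (Φ.map x) (Φ.map y)
  rw [Φ.map_mukai, X.mukai_swap x y] at h1
  have h2 : (1 / 2 + -1 : ℂ) = -(1 / 2) := by norm_num
  rw [h2]
  have h3 : ((-1 : ℂ) ^ n) ≠ 0 := pow_ne_zero _ (by norm_num)
  rw [mul_left_cancel₀ h3 h1, sub_self]

theorem pair_nat (m : ℕ) (x y : X.H) :
    Y.pair (1 / 2 - m) (Φ.map x) (Φ.map y) = X.pair (1 / 2 - m) x y := by
  induction m generalizing y with
  | zero =>
    rw [Nat.cast_zero, sub_zero, ← X.mukai_eq, ← Y.mukai_eq]
    exact Φ.map_mukai x y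
  | succ m ih =>
    have h1 : (1 / 2 - ((m + 1 : ℕ) : ℂ)) = (1 / 2 - m) + -1 := by
      push_cast
      ring
    rw [h1, X.pair_add, Y.pair_add, ← Φ.map_serre, ih]

/-- The pairings as polynomials. -/
noncomputable def poly {n : ℕ} (X : Cohomology n) (x y : X.H) : Polynomial ℂ :=
  ∑ k ∈ range (n + 1), Polynomial.C (((k.factorial : ℂ))⁻¹ * X.int ((X.chern ^ k) (X.dual x)) y) *
    Polynomial.X ^ k

theorem poly_eval {n : ℕ} (X : Cohomology n) (x y : X.H) (t : ℂ) :
    (poly X x y).eval t = X.pair t x y := by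
  rw [poly, Polynomial.eval_finsetSum, Cohomology.pair, Cohomology.expChern_eq, map_sum,
    LinearMap.sum_apply]
  refine Finset.sum_congr rfl fun k _ => ?_
  rw [Polynomial.eval_mul, Polynomial.eval_C, Polynomial.eval_pow, Polynomial.eval_X, map_smul,
    LinearMap.smul_apply, smul_eq_mul]
  ring

/-- **The pairing `∫ x^∨ ∪ y` is preserved.** -/
theorem map_int (x y : X.H) : Y.int (Y.dual (Φ.map x)) (Φ.map y) = X.int (X.dual x) y := by
  have h1 : poly Y (Φ.map x) (Φ.map y) = poly X x y := by
    refine Polynomial.eq_of_infinite_eval_eq _ _ ?_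
    refine Set.Infinite.mono (s := Set.range fun m : ℕ => (1 / 2 - m : ℂ)) ?_ ?_
    · rintro _ ⟨m, rfl⟩
      change (poly Y (Φ.map x) (Φ.map y)).eval _ = (poly X x y).eval _
      rw [poly_eval, poly_eval, Φ.pair_nat]
    · refine Set.infinite_range_of_injective fun a b h => ?_
      simp only [sub_right_inj] at h
      exact_mod_cast h
  have h2 := poly_eval Y (Φ.map x) (Φ.map y) 0
  rw [h1, poly_eval, Cohomology.pair, Cohomology.pair, X.expChern_zero, Y.expChern_zero] at h2
  exact h2.symm

end Transform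

end Pool.Agent.TH125.Der
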